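import Mathlib
import Pool.Agent.H459.UN.Stm
import Pool.Graph.R_pool_sql_team_seeded_63374d34.N490.PF.Pts

/-!
The average of the number of primes whose square divides `4 a ^ 3 + 27 b ^ 2` (part AVZ of project
UN, helper459).
-/

set_option autoImplicit false
set_option linter.all false

open Polynomial IsDedekindDomain NumberField
open scoped Classical

namespace Pool.Agent.H282.UN

open Pool.Agent.H459.UN
open Pool.Agent.N783.PF (Bd)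

section

variable {F : Type} [Field F] [NumberField F]

/-- distinct primes whose `e`-th powers contain `x` -/
theorem prod_norm_le (W : Finset (HeightOneSpectrum (𝓞 F))) (e : ℕ) (x : 𝓞 F) (hx : x ≠ 0)
    (h : ∀ w ∈ W, x ∈ w.asIdeal ^ e) {ρ : ℝ} (hb : Bd (x : F) ρ) :
    ∏ w ∈ W, (Ideal.absNorm w.asIdeal : ℝ) ^ e ≤ ρ ^ Module.finrank ℚ F := by
  have hdvd : (∏ w ∈ W, w.asIdeal ^ e) ∣ Ideal.span {x} := by
    refine Finset.prod_dvd_of_coprime ?_ ?_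
    · intro w _ w' _ hww
      have h1 : IsCoprime w.asIdeal w'.asIdeal := by
        rw [Ideal.isCoprime_iff_sup_eq]
        exact w.isMaximal.coprime_of_ne w'.isMaximal
          (fun h => hww (HeightOneSpectrum.ext h))
      exact IsCoprime.pow h1
    · intro w hw
      exact Ideal.dvd_span_singleton.2 (h w hw)
  have hmem : x ∈ ∏ w ∈ W, w.asIdeal ^ e := Ideal.dvd_span_singleton.1 hdvd
  have := (Pool.Agent.N490.PF.norm_ge hmem hx hb).2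
  rw [map_prod] at this
  push_cast [map_pow] at this
  exact this

theorem absNorm_pos (w : HeightOneSpectrum (𝓞 F)) : 2 ≤ Ideal.absNorm w.asIdeal := by
  have h0 : Ideal.absNorm w.asIdeal ≠ 0 := fun h => w.ne_bot (Ideal.absNorm_eq_zero_iff.1 h)
  have h1 : Ideal.absNorm w.asIdeal ≠ 1 := fun h =>
    w.isPrime.ne_top (Ideal.absNorm_eq_one_iff.1 h)
  omega

theorem exists_prime_mem (w : HeightOneSpectrum (𝓞 F)) : ∀ n : ℕ, n ≠ 0 →
    ((n : ℕ) : 𝓞 F) ∈ w.asIdeal → ∃ p : ℕ, p.Prime ∧ p ∣ n ∧ ((p : ℕ) : 𝓞 F) ∈ w.asIdeal := by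
  intro n
  induction n using Nat.strong_induction_on with
  | _ n ih =>
    intro h0 hn
    have h1 : n ≠ 1 := by
      rintro rfl
      rw [Nat.cast_one] at hn
      exact w.isPrime.ne_top ((Ideal.eq_top_iff_one _).2 hn)
    obtain ⟨m, hm⟩ := Nat.minFac_dvd n
    have hmem : ((n.minFac : ℕ) : 𝓞 F) * (m : 𝓞 F) ∈ w.asIdeal := by
      rw [← Nat.cast_mul, ← hm]
      exact hn
    rcases w.isPrime.mem_or_mem hmem with h | h
    · exact ⟨_, Nat.minFac_prime h1, Nat.minFac_dvd n, h⟩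
    · have hm0 : m ≠ 0 := by
        rintro rfl
        rw [mul_zero] at hm
        exact h0 hm
      have hlt : m < n := by
        have h2 := (Nat.minFac_prime h1).two_le
        nlinarith [Nat.pos_of_ne_zero hm0]
      obtain ⟨p, hp, hpm, hpw⟩ := ih m hlt hm0 h
      exact ⟨p, hp, hpm.trans (Dvd.intro_left _ hm.symm), hpw⟩

theorem exists_pw (w : HeightOneSpectrum (𝓞 F)) : ∃ p : ℕ, p.Prime ∧
    p ∣ Ideal.absNorm w.asIdeal ∧ ((p : ℕ) : 𝓞 F) ∈ w.asIdeal :=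
  exists_prime_mem w _ (by have := absNorm_pos w; omega) (Ideal.absNorm_mem _)

theorem bd_nat (p : ℕ) : Bd (((p : ℕ) : 𝓞 F) : F) (p : ℝ) := by
  intro σ
  have : σ ((((p : ℕ) : 𝓞 F) : F)) = (p : ℂ) := by
    change σ (algebraMap (𝓞 F) F (p : 𝓞 F)) = _
    rw [map_natCast, map_natCast]
  rw [this]
  simp

/-- The sum of the `1 / N(w) ^ 2` is bounded. -/
theorem sum_inv_sq (F : Type) [Field F] [NumberField F] : ∃ c : ℝ, 0 < c ∧
    ∀ W : Finset (HeightOneSpectrum (𝓞 F)),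
      ∑ w ∈ W, 1 / (Ideal.absNorm w.asIdeal : ℝ) ^ 2 ≤ c := by
  choose pw hpr hdvd hmem using exists_pw (F := F)
  have hs : Summable (fun n : ℕ => 1 / (n : ℝ) ^ 2) := Real.summable_one_div_nat_pow.2 one_lt_two
  set d := Module.finrank ℚ F with hd
  have ht : 0 ≤ ∑' n : ℕ, 1 / (n : ℝ) ^ 2 := tsum_nonneg fun n => by positivity
  refine ⟨d * ∑' n : ℕ, 1 / (n : ℝ) ^ 2 + 1, by positivity, fun W => ?_⟩
  have hple : ∀ w : HeightOneSpectrum (𝓞 F), pw w ≤ Ideal.absNorm w.asIdeal := fun w =>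
    Nat.le_of_dvd (by have := absNorm_pos w; omega) (hdvd w)
  have h1 : ∀ w ∈ W, 1 / (Ideal.absNorm w.asIdeal : ℝ) ^ 2 ≤ 1 / (pw w : ℝ) ^ 2 := by
    intro w _
    have h2 : (0 : ℝ) < pw w := by exact_mod_cast (hpr w).pos
    have h3 : (pw w : ℝ) ≤ Ideal.absNorm w.asIdeal := by exact_mod_cast hple w
    exact one_div_le_one_div_of_le (by positivity) (pow_le_pow_left₀ h2.le h3 2)
  refine (Finset.sum_le_sum h1).trans ?_
  have h2 : ∑ w ∈ W, 1 / (pw w : ℝ) ^ 2 =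
      ∑ p ∈ W.image pw, ∑ w ∈ W.filter (fun w => pw w = p), 1 / (pw w : ℝ) ^ 2 :=
    (Finset.sum_fiberwise_of_maps_to (fun w hw => Finset.mem_image_of_mem pw hw) _).symm
  rw [h2]
  have h3 : ∀ p ∈ W.image pw, ∑ w ∈ W.filter (fun w => pw w = p), 1 / (pw w : ℝ) ^ 2 ≤
      d * (1 / (p : ℝ) ^ 2) := by
    intro p hp
    obtain ⟨w0, _, rfl⟩ := Finset.mem_image.1 hp
    have h4 : ∑ w ∈ W.filter (fun w => pw w = pw w0), 1 / (pw w : ℝ) ^ 2 =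
        ((W.filter (fun w => pw w = pw w0)).card : ℝ) * (1 / (pw w0 : ℝ) ^ 2) := by
      rw [← nsmul_eq_mul, ← Finset.sum_const]
      refine Finset.sum_congr rfl fun w hw => ?_
      rw [(Finset.mem_filter.1 hw).2]
    rw [h4]
    refine mul_le_mul_of_nonneg_right ?_ (by positivity)
    have hp1 : (1 : ℝ) < pw w0 := by exact_mod_cast (hpr w0).one_lt
    have h5 := prod_norm_le (W.filter (fun w => pw w = pw w0)) 1 ((pw w0 : ℕ) : 𝓞 F)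
      (by exact_mod_cast (hpr w0).ne_zero) (fun w hw => by
        rw [pow_one, ← (Finset.mem_filter.1 hw).2]
        exact hmem w) (bd_nat (pw w0))
    have h6 : (pw w0 : ℝ) ^ (W.filter (fun w => pw w = pw w0)).card ≤
        ∏ w ∈ W.filter (fun w => pw w = pw w0), (Ideal.absNorm w.asIdeal : ℝ) ^ 1 := by
      rw [← Finset.prod_const]
      refine Finset.prod_le_prod (fun _ _ => by positivity) fun w hw => ?_
      rw [pow_one, ← (Finset.mem_filter.1 hw).2]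
      exact_mod_cast hple w
    have h7 := h6.trans h5
    rw [pow_le_pow_iff_right₀ hp1] at h7
    exact_mod_cast h7
  refine (Finset.sum_le_sum h3).trans ?_
  rw [← Finset.mul_sum]
  have h8 : ∑ p ∈ W.image pw, 1 / (p : ℝ) ^ 2 ≤ ∑' n : ℕ, 1 / (n : ℝ) ^ 2 :=
    hs.sum_le_tsum _ (fun _ _ => by positivity)
  have h9 : (0 : ℝ) ≤ d := Nat.cast_nonneg _
  nlinarith [mul_le_mul_of_nonneg_left h8 h9]

/-- a number of distinct primes of large norm -/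
theorem large (W : Finset (HeightOneSpectrum (𝓞 F))) (x : 𝓞 F) (hx : x ≠ 0) (B : ℕ) (hB : 1 ≤ B)
    (h : ∀ w ∈ W, x ∈ w.asIdeal ^ 2) (hb : Bd (x : F) (31 * (B : ℝ) ^ 6))
    (hl : ∀ w ∈ W, (B : ℝ) ^ Module.finrank ℚ F ≤ Ideal.absNorm w.asIdeal) :
    W.card ≤ 5 + 5 * Module.finrank ℚ F := by
  set d := Module.finrank ℚ F with hd
  by_contra hcon
  push Not at hcon
  have h1 := prod_norm_le W 2 x hx h hb
  rw [← hd] at h1
  have hB1 : (1 : ℝ) ≤ B := by exact_mod_cast hB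
  have hBd : (1 : ℝ) ≤ (B : ℝ) ^ d := one_le_pow₀ hB1
  have h2 : (2 * (B : ℝ) ^ d) ^ W.card ≤ ∏ w ∈ W, (Ideal.absNorm w.asIdeal : ℝ) ^ 2 := by
    rw [← Finset.prod_const]
    refine Finset.prod_le_prod (fun _ _ => by positivity) fun w hw => ?_
    have h3 := hl w hw
    have h4 : (2 : ℝ) ≤ Ideal.absNorm w.asIdeal := by exact_mod_cast absNorm_pos w
    nlinarith
  have h3 := h2.trans h1
  rw [mul_pow, mul_pow] at h3
  have h4 : ((B : ℝ) ^ d) ^ 6 ≤ ((B : ℝ) ^ d) ^ W.card := pow_le_pow_right₀ hBd (by omega)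
  have h5 : ((B : ℝ) ^ 6) ^ d = ((B : ℝ) ^ d) ^ 6 := by rw [← pow_mul, ← pow_mul, mul_comm]
  rw [h5] at h3
  have h6 : (0 : ℝ) < ((B : ℝ) ^ d) ^ 6 := by positivity
  have h7 : (2 : ℝ) ^ W.card * ((B : ℝ) ^ d) ^ 6 ≤ 31 ^ d * ((B : ℝ) ^ d) ^ 6 :=
    (mul_le_mul_of_nonneg_left h4 (by positivity)).trans h3
  have h8 : (2 : ℝ) ^ W.card ≤ 31 ^ d := le_of_mul_le_mul_right h7 h6
  have h9 : (31 : ℝ) ^ d ≤ (2 : ℝ) ^ (5 * d) := by
    rw [pow_mul]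
    exact pow_le_pow_left₀ (by norm_num) (by norm_num) d
  have h10 := h8.trans h9
  rw [pow_le_pow_iff_right₀ one_lt_two] at h10
  omega

/-- The discriminant. -/
noncomputable def Δ (p : 𝓞 F × 𝓞 F) : 𝓞 F := 4 * p.1 ^ 3 + 27 * p.2 ^ 2

theorem bd_disc {p : 𝓞 F × 𝓞 F} {B : ℕ} (h1 : Bd (p.1 : F) ((B : ℝ) ^ 2))
    (h2 : Bd (p.2 : F) ((B : ℝ) ^ 3)) : Bd (Δ p : F) (31 * (B : ℝ) ^ 6) := by
  intro σ
  have e4 : algebraMap (𝓞 F) F 4 = 4 := map_ofNat _ 4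
  have e27 : algebraMap (𝓞 F) F 27 = 27 := map_ofNat _ 27
  have e : σ (Δ p : F) = 4 * (σ (p.1 : F)) ^ 3 + 27 * (σ (p.2 : F)) ^ 2 := by
    change σ (algebraMap (𝓞 F) F (4 * p.1 ^ 3 + 27 * p.2 ^ 2)) = _
    simp only [map_add, map_mul, map_pow, e4, e27, map_ofNat]
  rw [e]
  refine (norm_add_le _ _).trans ?_
  rw [norm_mul, norm_mul, norm_pow, norm_pow]
  have a1 : ‖σ (p.1 : F)‖ ^ 3 ≤ ((B : ℝ) ^ 2) ^ 3 := pow_le_pow_left₀ (norm_nonneg _) (h1 σ) 3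
  have a2 : ‖σ (p.2 : F)‖ ^ 2 ≤ ((B : ℝ) ^ 3) ^ 2 := pow_le_pow_left₀ (norm_nonneg _) (h2 σ) 2
  have n4 : ‖(4 : ℂ)‖ = 4 := by simp
  have n27 : ‖(27 : ℂ)‖ = 27 := by simp
  rw [n4, n27]
  nlinarith

/-- the pairs in the classes modulo the square of a prime -/
theorem classes (h : S_RES) {C0 : ℝ} (hC0 : 0 < C0)
    (hpts : ∀ (𝔞 : Ideal (𝓞 F)) (b : 𝓞 F) (R : ℝ), 𝔞 ≠ ⊥ → 0 ≤ R →
      {a : 𝓞 F | a - b ∈ 𝔞 ∧ Bd (a : F) R}.Finite ∧
      (({a : 𝓞 F | a - b ∈ 𝔞 ∧ Bd (a : F) R}.ncard : ℝ)) ≤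
        C0 * (R ^ Module.finrank ℚ F / (Ideal.absNorm 𝔞 : ℝ) + 1))
    (B : ℕ) (hB : 1 ≤ B) (T : Finset (𝓞 F × 𝓞 F))
    (hT : ∀ p ∈ T, Bd (p.1 : F) ((B : ℝ) ^ 2) ∧ Bd (p.2 : F) ((B : ℝ) ^ 3))
    (w : HeightOneSpectrum (𝓞 F)) (h6 : (6 : 𝓞 F) ∉ w.asIdeal)
    (hw : (Ideal.absNorm w.asIdeal : ℝ) ≤ (B : ℝ) ^ Module.finrank ℚ F) :
    ((T.filter (fun p => Δ p ∈ w.asIdeal ^ 2)).card : ℝ) ≤
      12 * C0 ^ 2 * (B : ℝ) ^ (5 * Module.finrank ℚ F) *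
        (1 / (Ideal.absNorm w.asIdeal : ℝ) ^ 2) := by
  set d := Module.finrank ℚ F with hd
  set I : Ideal (𝓞 F) := w.asIdeal ^ 2 with hI
  have hI0 : I ≠ ⊥ := pow_ne_zero 2 w.ne_bot
  set Nw : ℝ := (Ideal.absNorm w.asIdeal : ℝ) with hNw
  have hN2 : (2 : ℝ) ≤ Nw := by rw [hNw]; exact_mod_cast absNorm_pos w
  have hN0 : 0 < Nw := by linarith
  have hNI : (Ideal.absNorm I : ℝ) = Nw ^ 2 := by rw [hI, map_pow, Nat.cast_pow]
  have hB1 : (1 : ℝ) ≤ B := by exact_mod_cast hB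
  have hfin : Finite (𝓞 F ⧸ I) := Ideal.finiteQuotientOfFreeOfNeBot I hI0
  let f : 𝓞 F × 𝓞 F → (𝓞 F ⧸ I) × (𝓞 F ⧸ I) := fun p =>
    (Ideal.Quotient.mk I p.1, Ideal.Quotient.mk I p.2)
  set S := T.filter (fun p => Δ p ∈ I) with hS
  -- the number of classes
  have himg : ((S.image f).card : ℝ) ≤ 3 * Nw ^ 2 := by
    have h1 : (S.image f).card ≤
        Nat.card {p : (𝓞 F ⧸ I) × (𝓞 F ⧸ I) // 4 * p.1 ^ 3 + 27 * p.2 ^ 2 = 0} := by
      have e : Nat.card {p : (𝓞 F ⧸ I) × (𝓞 F ⧸ I) // 4 * p.1 ^ 3 + 27 * p.2 ^ 2 = 0} =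
          {p : (𝓞 F ⧸ I) × (𝓞 F ⧸ I) | 4 * p.1 ^ 3 + 27 * p.2 ^ 2 = 0}.ncard :=
        Nat.card_coe_set_eq _
      rw [e, ← Set.ncard_coe_finset (S.image f)]
      refine Set.ncard_le_ncard ?_ (Set.toFinite _)
      intro c hc
      obtain ⟨p, hp, rfl⟩ := Finset.mem_image.1 (Finset.mem_coe.1 hc)
      have hp2 : Δ p ∈ I := (Finset.mem_filter.1 hp).2
      change 4 * (Ideal.Quotient.mk I p.1) ^ 3 + 27 * (Ideal.Quotient.mk I p.2) ^ 2 = 0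
      have h3 := Ideal.Quotient.eq_zero_iff_mem.2 hp2
      unfold Δ at h3
      rw [map_add, map_mul, map_mul, map_pow, map_pow, map_ofNat, map_ofNat] at h3
      exact h3
    have h2 := h1.trans (h F w h6)
    rw [hNw]
    exact_mod_cast h2
  -- the number of pairs in a class
  have hfib : ∀ c ∈ S.image f, ((S.filter (fun p => f p = c)).card : ℝ) ≤
      (C0 * (((B : ℝ) ^ 2) ^ d / Nw ^ 2 + 1)) * (C0 * (((B : ℝ) ^ 3) ^ d / Nw ^ 2 + 1)) := by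
    intro c hc
    obtain ⟨q, hq, rfl⟩ := Finset.mem_image.1 hc
    obtain ⟨f1, n1⟩ := hpts I q.1 ((B : ℝ) ^ 2) hI0 (by positivity)
    obtain ⟨f2, n2⟩ := hpts I q.2 ((B : ℝ) ^ 3) hI0 (by positivity)
    rw [hNI] at n1 n2
    have hsub : ((S.filter (fun p => f p = f q) : Finset (𝓞 F × 𝓞 F)) : Set (𝓞 F × 𝓞 F)) ⊆
        {a : 𝓞 F | a - q.1 ∈ I ∧ Bd (a : F) ((B : ℝ) ^ 2)} ×ˢ
          {a : 𝓞 F | a - q.2 ∈ I ∧ Bd (a : F) ((B : ℝ) ^ 3)} := by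
      intro p hp
      obtain ⟨hpS, hpf⟩ := Finset.mem_filter.1 (Finset.mem_coe.1 hp)
      have hpT := hT p (Finset.mem_filter.1 hpS).1
      have e1 : Ideal.Quotient.mk I p.1 = Ideal.Quotient.mk I q.1 := congrArg Prod.fst hpf
      have e2 : Ideal.Quotient.mk I p.2 = Ideal.Quotient.mk I q.2 := congrArg Prod.snd hpf
      exact Set.mem_prod.2 ⟨⟨Ideal.Quotient.eq.1 e1, hpT.1⟩, ⟨Ideal.Quotient.eq.1 e2, hpT.2⟩⟩
    have h3 := Set.ncard_le_ncard hsub (f1.prod f2)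
    rw [Set.ncard_prod, Set.ncard_coe_finset] at h3
    have h4 : ((S.filter (fun p => f p = f q)).card : ℝ) ≤
        ({a : 𝓞 F | a - q.1 ∈ I ∧ Bd (a : F) ((B : ℝ) ^ 2)}.ncard : ℝ) *
          ({a : 𝓞 F | a - q.2 ∈ I ∧ Bd (a : F) ((B : ℝ) ^ 3)}.ncard : ℝ) := by
      exact_mod_cast h3
    exact h4.trans (mul_le_mul n1 n2 (Nat.cast_nonneg _) (by positivity))
  have hBd : (1 : ℝ) ≤ (B : ℝ) ^ d := one_le_pow₀ hB1
  have hNB : Nw ^ 2 ≤ ((B : ℝ) ^ 2) ^ d := by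
    rw [← pow_mul, mul_comm 2 d, pow_mul]
    exact pow_le_pow_left₀ hN0.le hw 2
  have hNB3 : Nw ^ 2 ≤ ((B : ℝ) ^ 3) ^ d := by
    refine hNB.trans ?_
    rw [← pow_mul, ← pow_mul]
    exact pow_le_pow_right₀ hB1 (by omega)
  have hN2p : 0 < Nw ^ 2 := by positivity
  have g1 : ((B : ℝ) ^ 2) ^ d / Nw ^ 2 + 1 ≤ 2 * (((B : ℝ) ^ 2) ^ d / Nw ^ 2) := by
    have : 1 ≤ ((B : ℝ) ^ 2) ^ d / Nw ^ 2 := (one_le_div hN2p).2 hNB
    linarith
  have g2 : ((B : ℝ) ^ 3) ^ d / Nw ^ 2 + 1 ≤ 2 * (((B : ℝ) ^ 3) ^ d / Nw ^ 2) := by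
    have : 1 ≤ ((B : ℝ) ^ 3) ^ d / Nw ^ 2 := (one_le_div hN2p).2 hNB3
    linarith
  have hM : (C0 * (((B : ℝ) ^ 2) ^ d / Nw ^ 2 + 1)) * (C0 * (((B : ℝ) ^ 3) ^ d / Nw ^ 2 + 1)) ≤
      (C0 * (2 * (((B : ℝ) ^ 2) ^ d / Nw ^ 2))) * (C0 * (2 * (((B : ℝ) ^ 3) ^ d / Nw ^ 2))) := by
    gcongr
  rw [Finset.card_eq_sum_card_image f S]
  push_cast
  refine (Finset.sum_le_sum fun c hc => (hfib c hc).trans hM).trans ?_
  rw [Finset.sum_const, nsmul_eq_mul]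
  refine (mul_le_mul_of_nonneg_right himg (by positivity)).trans (le_of_eq ?_)
  have e5 : (B : ℝ) ^ (5 * d) = ((B : ℝ) ^ 2) ^ d * ((B : ℝ) ^ 3) ^ d := by
    rw [← pow_mul, ← pow_mul, ← pow_add]
    congr 1
    ring
  rw [e5]
  field_simp
  ring

end

theorem avz (h : S_RES) : S_AVZ := by
  intro F _ _
  set d := Module.finrank ℚ F with hd
  obtain ⟨-, C0, hC0, -, hpts⟩ := Pool.Agent.N490.PF.pts F
  obtain ⟨c, hc, hsum⟩ := sum_inv_sq F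
  -- the primes dividing 6
  have hfac : ∀ x : 𝓞 F, x ≠ 0 → {w : HeightOneSpectrum (𝓞 F) | x ∈ w.asIdeal}.Finite := by
    intro x hx
    refine (Ideal.finite_factors (I := Ideal.span {x}) ?_).subset fun w hw => ?_
    · rwa [Ne, Ideal.zero_eq_bot, Ideal.span_singleton_eq_bot]
    · exact Ideal.dvd_span_singleton.2 hw
  have h6f := hfac (6 : 𝓞 F) (by norm_num)
  set s6 : ℕ := h6f.toFinset.card with hs6
  set K : ℝ := s6 + (5 + 5 * d) with hK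
  have hK0 : 0 ≤ K := by positivity
  refine ⟨⌈K * (4 * C0 ^ 2) + 12 * C0 ^ 2 * c⌉₊, fun B hB T hT => ?_⟩
  have hB1 : (1 : ℝ) ≤ B := by exact_mod_cast hB
  have hT' : ∀ p ∈ T, Bd (p.1 : F) ((B : ℝ) ^ 2) ∧ Bd (p.2 : F) ((B : ℝ) ^ 3) := fun p hp =>
    ⟨fun σ => ((hT p hp).2 σ).1, fun σ => ((hT p hp).2 σ).2⟩
  -- the small primes
  have hsm : {w : HeightOneSpectrum (𝓞 F) | (6 : 𝓞 F) ∉ w.asIdeal ∧
      (Ideal.absNorm w.asIdeal : ℝ) ≤ (B : ℝ) ^ d}.Finite := by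
    have h1 : {I : Ideal (𝓞 F) | Ideal.absNorm I ≤ B ^ d}.Finite := by
      exact Ideal.finite_setOf_absNorm_le (B ^ d)
    refine Set.Finite.of_finite_image (f := fun w : HeightOneSpectrum (𝓞 F) => w.asIdeal) ?_
      (fun w _ w' _ hww => HeightOneSpectrum.ext hww)
    refine h1.subset ?_
    rintro _ ⟨w, hw, rfl⟩
    have := hw.2
    exact_mod_cast this
  set Ws := hsm.toFinset with hWs
  -- the decomposition
  have hdec : ∀ p ∈ T, ((Zd p).ncard : ℝ) ≤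
      K + ((Ws.filter (fun w => Δ p ∈ w.asIdeal ^ 2)).card : ℝ) := by
    intro p hp
    have hΔ : Δ p ≠ 0 := (hT p hp).1
    have hZf : (Zd p).Finite := (hfac (Δ p) hΔ).subset fun w hw =>
      Ideal.pow_le_self two_ne_zero hw
    set Z := hZf.toFinset with hZ
    have hZc : (Zd p).ncard = Z.card := Set.ncard_eq_toFinset_card _ hZf
    set L := Z.filter (fun w => (B : ℝ) ^ d ≤ Ideal.absNorm w.asIdeal) with hL
    have hLc : L.card ≤ 5 + 5 * d := by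
      refine large L (Δ p) hΔ B hB (fun w hw => ?_) (bd_disc (hT' p hp).1 (hT' p hp).2)
        (fun w hw => (Finset.mem_filter.1 hw).2)
      have := (Finset.mem_filter.1 hw).1
      rw [hZ, Set.Finite.mem_toFinset] at this
      exact this
    have hsub : Z ⊆ (h6f.toFinset ∪ L) ∪ Ws.filter (fun w => Δ p ∈ w.asIdeal ^ 2) := by
      intro w hw
      have hwZ : Δ p ∈ w.asIdeal ^ 2 := by
        rw [hZ, Set.Finite.mem_toFinset] at hw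
        exact hw
      rw [Finset.mem_union, Finset.mem_union]
      by_cases h6 : (6 : 𝓞 F) ∈ w.asIdeal
      · exact Or.inl (Or.inl ((Set.Finite.mem_toFinset _).2 h6))
      · rcases le_total ((B : ℝ) ^ d) (Ideal.absNorm w.asIdeal : ℝ) with hb | hb
        · exact Or.inl (Or.inr (Finset.mem_filter.2 ⟨hw, hb⟩))
        · exact Or.inr (Finset.mem_filter.2 ⟨(Set.Finite.mem_toFinset _).2 ⟨h6, hb⟩, hwZ⟩)
    have h1 := (Finset.card_le_card hsub).trans ((Finset.card_union_le _ _).trans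
      (Nat.add_le_add_right ((Finset.card_union_le _ _).trans (Nat.add_le_add_left hLc _)) _))
    rw [hZc, hK]
    exact_mod_cast h1
  -- the number of pairs
  have hTc : (T.card : ℝ) ≤ 4 * C0 ^ 2 * (B : ℝ) ^ (5 * d) := by
    obtain ⟨f1, n1⟩ := hpts ⊤ 0 ((B : ℝ) ^ 2) top_ne_bot (by positivity)
    obtain ⟨f2, n2⟩ := hpts ⊤ 0 ((B : ℝ) ^ 3) top_ne_bot (by positivity)
    rw [Ideal.absNorm_top, Nat.cast_one, div_one] at n1 n2
    have hsub : (T : Set (𝓞 F × 𝓞 F)) ⊆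
        {a : 𝓞 F | a - 0 ∈ (⊤ : Ideal (𝓞 F)) ∧ Bd (a : F) ((B : ℝ) ^ 2)} ×ˢ
          {a : 𝓞 F | a - 0 ∈ (⊤ : Ideal (𝓞 F)) ∧ Bd (a : F) ((B : ℝ) ^ 3)} := by
      intro p hp
      have := hT' p (Finset.mem_coe.1 hp)
      exact Set.mem_prod.2 ⟨⟨Submodule.mem_top, this.1⟩, ⟨Submodule.mem_top, this.2⟩⟩
    have h3 := Set.ncard_le_ncard hsub (f1.prod f2)
    rw [Set.ncard_prod, Set.ncard_coe_finset] at h3
    have h4 : (T.card : ℝ) ≤
        ({a : 𝓞 F | a - 0 ∈ (⊤ : Ideal (𝓞 F)) ∧ Bd (a : F) ((B : ℝ) ^ 2)}.ncard : ℝ) *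
          ({a : 𝓞 F | a - 0 ∈ (⊤ : Ideal (𝓞 F)) ∧ Bd (a : F) ((B : ℝ) ^ 3)}.ncard : ℝ) := by
      exact_mod_cast h3
    have h5 : ((B : ℝ) ^ 2) ^ d + 1 ≤ 2 * ((B : ℝ) ^ 2) ^ d := by
      have := one_le_pow₀ (one_le_pow₀ hB1 (n := 2)) (n := d)
      linarith
    have h6 : ((B : ℝ) ^ 3) ^ d + 1 ≤ 2 * ((B : ℝ) ^ 3) ^ d := by
      have := one_le_pow₀ (one_le_pow₀ hB1 (n := 3)) (n := d)
      linarith
    calc (T.card : ℝ) ≤ _ := h4
      _ ≤ (C0 * (((B : ℝ) ^ 2) ^ d + 1)) * (C0 * (((B : ℝ) ^ 3) ^ d + 1)) :=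
          mul_le_mul n1 n2 (Nat.cast_nonneg _) (by positivity)
      _ ≤ (C0 * (2 * ((B : ℝ) ^ 2) ^ d)) * (C0 * (2 * ((B : ℝ) ^ 3) ^ d)) := by gcongr
      _ = _ := by
          have e5 : (B : ℝ) ^ (5 * d) = ((B : ℝ) ^ 2) ^ d * ((B : ℝ) ^ 3) ^ d := by
            rw [← pow_mul, ← pow_mul, ← pow_add]
            congr 1
            ring
          rw [e5]
          ring
  -- the small primes, on average
  have havg : ∑ p ∈ T, ((Ws.filter (fun w => Δ p ∈ w.asIdeal ^ 2)).card : ℝ) ≤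
      12 * C0 ^ 2 * (B : ℝ) ^ (5 * d) * c := by
    have e1 : ∑ p ∈ T, ((Ws.filter (fun w => Δ p ∈ w.asIdeal ^ 2)).card : ℝ) =
        ∑ w ∈ Ws, ((T.filter (fun p => Δ p ∈ w.asIdeal ^ 2)).card : ℝ) := by
      have := Finset.sum_card_bipartiteAbove_eq_sum_card_bipartiteBelow
        (s := T) (t := Ws) (fun (p : 𝓞 F × 𝓞 F) (w : HeightOneSpectrum (𝓞 F)) =>
          Δ p ∈ w.asIdeal ^ 2)
      unfold Finset.bipartiteAbove Finset.bipartiteBelow at this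
      exact_mod_cast this
    rw [e1]
    have h1 : ∀ w ∈ Ws, ((T.filter (fun p => Δ p ∈ w.asIdeal ^ 2)).card : ℝ) ≤
        12 * C0 ^ 2 * (B : ℝ) ^ (5 * d) * (1 / (Ideal.absNorm w.asIdeal : ℝ) ^ 2) := by
      intro w hw
      have hw' := (Set.Finite.mem_toFinset hsm).1 hw
      exact classes h hC0 hpts B hB T hT' w hw'.1 hw'.2
    refine (Finset.sum_le_sum h1).trans ?_
    rw [← Finset.mul_sum]
    exact mul_le_mul_of_nonneg_left (hsum Ws) (by positivity)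
  have hfinal : ((∑ p ∈ T, (Zd p).ncard : ℕ) : ℝ) ≤
      (K * (4 * C0 ^ 2) + 12 * C0 ^ 2 * c) * (B : ℝ) ^ (5 * d) := by
    push_cast
    refine (Finset.sum_le_sum hdec).trans ?_
    rw [Finset.sum_add_distrib, Finset.sum_const, nsmul_eq_mul]
    have h1 : (T.card : ℝ) * K ≤ 4 * C0 ^ 2 * (B : ℝ) ^ (5 * d) * K :=
      mul_le_mul_of_nonneg_right hTc hK0
    linarith
  have h1 : (((⌈K * (4 * C0 ^ 2) + 12 * C0 ^ 2 * c⌉₊ * B ^ (5 * d) : ℕ)) : ℝ) ≥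
      (K * (4 * C0 ^ 2) + 12 * C0 ^ 2 * c) * (B : ℝ) ^ (5 * d) := by
    push_cast
    exact mul_le_mul_of_nonneg_right (Nat.le_ceil _) (by positivity)
  exact_mod_cast hfinal.trans h1

end Pool.Agent.H282.UN
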